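import Pool.Agent.Helper39_BEH.Cutc

/-!
# Squad BEH, row HU3: cut-off functions in the space
-/

set_option autoImplicit false

namespace Pool.Agent.BEH.H39

open Set Filter Topology MeasureTheory
open scoped InnerProductSpace ENNReal
open Pool.Agent.BE01 Pool.Agent.BEL Pool.Agent.BEH

noncomputable section

/-- the profile `χ (r / s)` -/
def q3 (χ : ℝ → ℝ) (r s : ℝ) : ℝ := if s ≤ 0 then 0 else χ (r / s)

theorem q3_pos {χ : ℝ → ℝ} {r s : ℝ} (hs : 0 < s) : q3 χ r s = χ (r / s) :=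
  if_neg (not_le.2 hs)

theorem q3_deriv {χ : ℝ → ℝ} (hχ : ContDiff ℝ ((⊤ : ℕ∞) : WithTop ℕ∞) χ) {r s : ℝ} (hs : 0 < s) :
    deriv (q3 χ r) s = deriv χ (r / s) * (-(r / s ^ 2)) := by
  have h1 : q3 χ r =ᶠ[𝓝 s] fun t => χ (r / t) := by
    filter_upwards [Ioi_mem_nhds hs] with t ht
    exact q3_pos ht
  rw [h1.deriv_eq]
  have h2 : HasDerivAt (fun t : ℝ => r / t) (-(r / s ^ 2)) s := by
    have h3 := (hasDerivAt_inv hs.ne').const_mul r
    have h4 : (fun t : ℝ => r / t) = fun t => r * t⁻¹ := by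
      funext t
      rw [div_eq_mul_inv]
    rw [h4]
    have h5 : -(r / s ^ 2) = r * -(s ^ 2)⁻¹ := by
      rw [div_eq_mul_inv]; ring
    rw [h5]
    exact h3
  have h6 : HasDerivAt χ (deriv χ (r / s)) (r / s) :=
    (hχ.differentiable (by simp)).differentiableAt.hasDerivAt
  exact (h6.comp s h2).deriv

/-- row HU3 -/
theorem hu3 (chi : ChiStmt) (rai : RaiStmt) (rgr : RgrStmt) (err : ErrStmt) : Hu3Stmt := by
  intro N B f x R κ hf hL hR hκ
  obtain ⟨χ, hχ, hanti, hχ1, hχ0, hχb, hχz, hχi⟩ := chi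
  have hrng := chi_rng hanti hχ1 hχ0
  obtain ⟨κ', hκ'⟩ : ∃ κ' : ℝ, κ' = κ / (100 * (|B| * N ^ 2 + 1)) := ⟨_, rfl⟩
  have hBN : 0 ≤ |B| * (N : ℝ) ^ 2 := by positivity
  have hκ'0 : 0 < κ' := by rw [hκ']; positivity
  obtain ⟨ρ₀, hρ₀, hρ⟩ := leb_unif hL hκ'0
  have hπ : 0 < Real.pi := Real.pi_pos
  have hπ3 : 3 < Real.pi := Real.pi_gt_three
  refine ⟨min (min (Real.pi * R) (Real.pi * ρ₀)) (min 1 κ), by positivity, fun γ hγ hγ₀ => ?_⟩
  have hγ1 : γ < Real.pi * R :=
    lt_of_lt_of_le hγ₀ ((min_le_left _ _).trans (min_le_left _ _))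
  have hγ2 : γ < Real.pi * ρ₀ :=
    lt_of_lt_of_le hγ₀ ((min_le_left _ _).trans (min_le_right _ _))
  have hγ3 : γ < 1 := lt_of_lt_of_le hγ₀ ((min_le_right _ _).trans (min_le_left _ _))
  have hγ4 : γ < κ := lt_of_lt_of_le hγ₀ ((min_le_right _ _).trans (min_le_right _ _))
  obtain ⟨r, hr⟩ : ∃ r : ℝ, r = γ / (4 * Real.pi) := ⟨_, rfl⟩
  rw [← hr]
  have hr0 : 0 < r := by rw [hr]; positivity
  have hrγ : 4 * Real.pi * r = γ := by rw [hr]; field_simp
  have h4r : 4 * r = γ / Real.pi := by rw [hr]; field_simp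
  have h4R : 4 * r < R := by
    rw [h4r, div_lt_iff₀ hπ]
    linarith
  have h4ρ : 4 * r ≤ ρ₀ := by
    rw [h4r, div_le_iff₀ hπ]
    linarith
  have hq0 : ∀ s, s ≤ 8 / 7 * r → q3 χ r s = 0 := by
    intro s hs
    rcases le_or_gt s 0 with h | h
    · exact if_pos h
    · rw [q3_pos h]
      apply hχ0
      rw [le_div_iff₀ h]
      linarith
  have hq1 : ∀ s, 4 * r ≤ s → q3 χ r s = 1 := by
    intro s hs
    have h : 0 < s := by linarith
    rw [q3_pos h]
    apply hχ1
    rw [div_le_iff₀ h]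
    linarith
  -- the derivative
  have hd2 : ∀ s, deriv (q3 χ r) s ^ 2 ≤ 25 / 4 * (r ^ 2)⁻¹ := by
    intro s
    rcases lt_or_ge s (8 / 7 * r) with h | h
    · rw [deriv_zero_of_lt hq0 h]
      have h00 : 0 ≤ 25 / 4 * (r ^ 2)⁻¹ := by positivity
      rw [zero_pow two_ne_zero]
      exact h00
    · have hs : 0 < s := by linarith
      have hrs : r ≤ s := by linarith
      rw [q3_deriv hχ hs, mul_pow, neg_sq, div_pow]
      have e1 : deriv χ (r / s) ^ 2 ≤ 25 / 4 := by
        have := hχb (r / s)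
        rw [← sq_abs]
        have h0 := abs_nonneg (deriv χ (r / s))
        nlinarith
      have e2 : r ^ 2 / (s ^ 2) ^ 2 ≤ (r ^ 2)⁻¹ := by
        rw [div_le_iff₀ (by positivity)]
        have e3 : (r ^ 2)⁻¹ * (s ^ 2) ^ 2 = (s ^ 2) ^ 2 / r ^ 2 := by
          rw [div_eq_mul_inv]; ring
        rw [e3, le_div_iff₀ (by positivity)]
        have e4 : r ^ 2 ≤ s ^ 2 := pow_le_pow_left₀ hr0.le hrs 2
        calc r ^ 2 * r ^ 2 ≤ s ^ 2 * s ^ 2 := mul_le_mul e4 e4 (by positivity) (by positivity)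
          _ = (s ^ 2) ^ 2 := by ring
      exact mul_le_mul e1 e2 (by positivity) (by norm_num)
  have hχint : Integrable (fun s => deriv χ s ^ 2) := by
    have hc : Continuous (fun s => deriv χ s ^ 2) :=
      (hχ.continuous_deriv (by simp)).pow 2
    refine hc.integrable_of_hasCompactSupport ?_
    refine HasCompactSupport.of_support_subset_isCompact
      (isCompact_Icc (a := (1 / 4 : ℝ)) (b := 7 / 8)) ?_
    intro s hs
    rw [Function.mem_support] at hs
    by_contra hcon
    apply hs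
    have : s ≤ 1 / 4 ∨ 7 / 8 ≤ s := by
      by_contra h
      push Not at h
      exact hcon ⟨h.1.le, h.2.le⟩
    rw [hχz s this]
    norm_num
  refine ⟨_, cut_of (q := q3 χ r) (r' := 8 / 7 * r) (R' := 4 * r) (δ := 400 * κ' * r) rai rgr err
    (Or.inr rfl) hf x hr0 (by linarith) h4R ?_ hq0 hq1 ?_ ?_ ?_ ?_ ?_⟩
  · -- smooth
    have h1 : ContDiffOn ℝ ((⊤ : ℕ∞) : WithTop ℕ∞) (fun s => χ (r / s)) (Ioi 0) :=
      hχ.comp_contDiffOn (contDiffOn_const.div contDiffOn_id fun s hs => ne_of_gt hs)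
    exact h1.congr fun s hs => q3_pos hs
  · intro s
    rcases le_or_gt s 0 with h | h
    · have : q3 χ r s = 0 := if_pos h
      rw [this]
      norm_num
    · rw [q3_pos h]
      exact hrng _
  · -- energy
    have e1 : sph 3 = 4 * Real.pi := by
      unfold sph
      norm_num
    have e2 : ∫ ρ in Ioi (0 : ℝ), ρ ^ (3 - 1) * deriv (q3 χ r) ρ ^ 2 =
        r * ∫ s in Ioi (0 : ℝ), deriv χ s ^ 2 := by
      have e3 := integral_comp_rpow_Ioi (fun s : ℝ => r ^ 2 * deriv χ (r * s) ^ 2)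
        (p := (-1 : ℝ)) (by norm_num)
      have e4 : ∫ ρ in Ioi (0 : ℝ), ρ ^ (3 - 1) * deriv (q3 χ r) ρ ^ 2 =
          ∫ s in Ioi (0 : ℝ), (|(-1 : ℝ)| * s ^ ((-1 : ℝ) - 1)) •
            (fun s : ℝ => r ^ 2 * deriv χ (r * s) ^ 2) (s ^ (-1 : ℝ)) := by
        refine setIntegral_congr_fun measurableSet_Ioi (fun s hs => ?_)
        have hs0 : (0 : ℝ) < s := hs
        simp only [smul_eq_mul]
        rw [q3_deriv hχ hs0]
        have a1 : s ^ ((-1 : ℝ) - 1) = (s ^ 2)⁻¹ := by
          have : ((-1 : ℝ) - 1) = -(2 : ℕ) := by norm_num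
          rw [this, Real.rpow_neg hs0.le, Real.rpow_natCast]
        have a2 : s ^ (-1 : ℝ) = s⁻¹ := Real.rpow_neg_one s
        rw [a1, a2, abs_neg, abs_one, one_mul, ← div_eq_mul_inv, mul_pow, neg_sq, div_pow]
        field_simp
      rw [e4, e3, integral_const_mul,
        integral_comp_mul_left_Ioi (fun s : ℝ => deriv χ s ^ 2) 0 hr0, mul_zero, smul_eq_mul]
      field_simp
    have e5 : ∫ s in Ioi (0 : ℝ), deriv χ s ^ 2 ≤ 5 / 2 :=
      (setIntegral_le_integral hχint (Eventually.of_forall fun s => sq_nonneg _)).trans hχi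
    rw [e1, e2]
    calc 4 * Real.pi * (r * ∫ s in Ioi (0 : ℝ), deriv χ s ^ 2)
        = (4 * Real.pi * r) * ∫ s in Ioi (0 : ℝ), deriv χ s ^ 2 := by ring
      _ ≤ (4 * Real.pi * r) * (5 / 2) :=
          mul_le_mul_of_nonneg_left e5 (by positivity)
      _ = 5 / 2 * γ := by rw [hrγ]; ring
  · -- error
    intro i
    have hm : Measurable (fun y => |f i y - f i x|) := ((hf i).1.sub measurable_const).abs
    have hio : IntegrableOn (fun y => |f i y - f i x|) (Metric.closedBall x (4 * r)) := by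
      refine Measure.integrableOn_of_bounded (M := 2 * B) measure_closedBall_lt_top.ne
        hm.aestronglyMeasurable (Eventually.of_forall fun y => ?_)
      have a1 := (hf i).2 y
      have a2 := (hf i).2 x
      rw [Real.norm_eq_abs, abs_abs]
      have a3 := abs_sub (f i y) (f i x)
      linarith
    have hii : Integrable (fun y => 25 / 4 * (r ^ 2)⁻¹ *
        (Metric.closedBall x (4 * r)).indicator (fun y => |f i y - f i x|) y) :=
      (hio.integrable_indicator Metric.isClosed_closedBall.measurableSet).const_mul _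
    calc ∫ y, |f i y - f i x| * deriv (q3 χ r) ‖y - x‖ ^ 2
        ≤ ∫ y, 25 / 4 * (r ^ 2)⁻¹ *
          (Metric.closedBall x (4 * r)).indicator (fun y => |f i y - f i x|) y := by
          refine integral_mono_of_nonneg (Eventually.of_forall fun y => by positivity) hii
            (Eventually.of_forall fun y => ?_)
          by_cases hy : y ∈ Metric.closedBall x (4 * r)
          · simp only [indicator_of_mem hy]
            have := mul_le_mul_of_nonneg_left (hd2 ‖y - x‖) (abs_nonneg (f i y - f i x))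
            linarith
          · simp only [indicator_of_notMem hy]
            rw [Metric.mem_closedBall, dist_eq_norm] at hy
            push Not at hy
            rw [deriv_zero_of_gt hq1 hy]
            simp
      _ = 25 / 4 * (r ^ 2)⁻¹ * ∫ y in Metric.closedBall x (4 * r), |f i y - f i x| := by
          rw [integral_const_mul, integral_indicator Metric.isClosed_closedBall.measurableSet]
      _ ≤ 25 / 4 * (r ^ 2)⁻¹ * (κ' * (4 * r) ^ 3) :=
          mul_le_mul_of_nonneg_left (hρ i (4 * r) (by positivity) h4ρ) (by positivity)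
      _ = 400 * κ' * r := by
          field_simp
          ring
  · -- constants
    have a1 : |B| * (N : ℝ) ^ 2 * (100 * κ') ≤ κ := by
      rw [hκ']
      have : |B| * (N : ℝ) ^ 2 * (100 * (κ / (100 * (|B| * N ^ 2 + 1)))) =
          κ * (|B| * N ^ 2) / (|B| * N ^ 2 + 1) := by field_simp
      rw [this, div_le_iff₀ (by positivity)]
      nlinarith
    have a2 : 8 * r ≤ γ := by
      rw [← hrγ]
      nlinarith
    calc 2 * |B| * N * (N * (400 * κ' * r)) = (|B| * (N : ℝ) ^ 2 * (100 * κ')) * (8 * r) := by ring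
      _ ≤ κ * γ := mul_le_mul a1 a2 (by positivity) hκ.le
  · -- volume
    have a1 : volume.real (Metric.ball x (4 * r)) = (4 * r) ^ 3 * (Real.pi * 4 / 3) := by
      unfold Measure.real
      rw [EuclideanSpace.volume_ball_fin_three, ENNReal.toReal_mul, ENNReal.toReal_pow,
        ENNReal.toReal_ofReal (by positivity), ENNReal.toReal_ofReal (by positivity)]
    rw [a1, h4r]
    have a2 : (γ / Real.pi) ^ 3 * (Real.pi * 4 / 3) = γ * (4 / 3 * γ ^ 2 / Real.pi ^ 2) := by
      field_simp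
    rw [a2]
    have a3 : 4 / 3 * γ ^ 2 / Real.pi ^ 2 ≤ κ := by
      rw [div_le_iff₀ (by positivity)]
      have a4 : γ ^ 2 ≤ κ := by nlinarith
      have a5 : 9 ≤ Real.pi ^ 2 := by nlinarith
      nlinarith
    have := mul_le_mul_of_nonneg_left a3 hγ.le
    linarith

end

end Pool.Agent.BEH.H39
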