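import Pool.Agent.Helper39_BEH.Cutc

/-!
# Squad BEH, row HU2: cut-off functions in the plane
-/

set_option autoImplicit false

namespace Pool.Agent.BEH.H39

open Set Filter Topology MeasureTheory
open scoped InnerProductSpace ENNReal
open Pool.Agent.BE01 Pool.Agent.BEL Pool.Agent.BEH

noncomputable section

/-- the profile `χ (- log s / L)` -/
def q2 (χ : ℝ → ℝ) (L s : ℝ) : ℝ := if s ≤ 0 then 0 else χ (-Real.log s / L)

theorem q2_pos {χ : ℝ → ℝ} {L s : ℝ} (hs : 0 < s) : q2 χ L s = χ (-Real.log s / L) :=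
  if_neg (not_le.2 hs)

theorem q2_deriv {χ : ℝ → ℝ} (hχ : ContDiff ℝ ((⊤ : ℕ∞) : WithTop ℕ∞) χ) {L s : ℝ} (hs : 0 < s) :
    deriv (q2 χ L) s = deriv χ (-Real.log s / L) * (-s⁻¹ / L) := by
  have h1 : q2 χ L =ᶠ[𝓝 s] fun t => χ (-Real.log t / L) := by
    filter_upwards [Ioi_mem_nhds hs] with t ht
    exact q2_pos ht
  rw [h1.deriv_eq]
  have h2 : HasDerivAt (fun t : ℝ => -Real.log t / L) (-s⁻¹ / L) s :=
    ((Real.hasDerivAt_log hs.ne').neg).div_const L
  have h6 : HasDerivAt χ (deriv χ (-Real.log s / L)) (-Real.log s / L) :=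
    (hχ.differentiable (by simp)).differentiableAt.hasDerivAt
  exact (h6.comp s h2).deriv

/-- the change of variables `ρ = exp (- L s)` -/
theorem int_exp {L : ℝ} (hL : 0 < L) (g : ℝ → ℝ) :
    ∫ ρ in Ioi (0 : ℝ), g ρ = ∫ s, L * Real.exp (-(L * s)) * g (Real.exp (-(L * s))) := by
  have himg : (fun s : ℝ => Real.exp (-(L * s))) '' univ = Ioi 0 := by
    ext t
    constructor
    · rintro ⟨s, _, rfl⟩
      exact Real.exp_pos _
    · intro ht
      refine ⟨-Real.log t / L, mem_univ _, ?_⟩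
      have ht0 : (0 : ℝ) < t := ht
      show Real.exp (-(L * (-Real.log t / L))) = t
      have e : -(L * (-Real.log t / L)) = Real.log t := by field_simp
      rw [e, Real.exp_log ht0]
  have hder : ∀ s ∈ (univ : Set ℝ), HasDerivWithinAt (fun s : ℝ => Real.exp (-(L * s)))
      (Real.exp (-(L * s)) * (-L)) univ s := by
    intro s _
    have h1 : HasDerivAt (fun s : ℝ => -(L * s)) (-L) s := by
      have h2 := ((hasDerivAt_id' s).const_mul L).fun_neg
      rw [mul_one] at h2
      exact h2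
    exact h1.exp.hasDerivWithinAt
  have hinj : InjOn (fun s : ℝ => Real.exp (-(L * s))) univ := by
    intro s _ t _ h
    have h1 := Real.exp_injective h
    have h2 : L * s = L * t := by linarith
    exact mul_left_cancel₀ hL.ne' h2
  have h := integral_image_eq_integral_abs_deriv_smul MeasurableSet.univ hder hinj g
  rw [himg] at h
  rw [h, setIntegral_univ]
  refine integral_congr_ae (Eventually.of_forall fun s => ?_)
  simp only [smul_eq_mul]
  rw [abs_mul, abs_of_pos (Real.exp_pos _), abs_neg, abs_of_pos hL]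
  ring

/-- row HU2 -/
theorem hu2 (chi : ChiStmt) (rai : RaiStmt) (rgr : RgrStmt) (err : ErrStmt) (dya : DyaStmt) :
    Hu2Stmt := by
  intro N B f x R κ hf hLb hR hκ
  obtain ⟨χ, hχ, hanti, hχ1, hχ0, hχb, hχz, hχi⟩ := chi
  have hrng := chi_rng hanti hχ1 hχ0
  obtain ⟨κ', hκ'⟩ : ∃ κ' : ℝ, κ' = κ / (25 * (|B| * N ^ 2 + 1)) := ⟨_, rfl⟩
  have hBN : 0 ≤ |B| * (N : ℝ) ^ 2 := by positivity
  have hκ'0 : 0 < κ' := by rw [hκ']; positivity
  obtain ⟨ρ₀, hρ₀, hρ⟩ := leb_unif hLb hκ'0
  have hπ : 0 < Real.pi := Real.pi_pos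
  have hπ3 : 3 < Real.pi := Real.pi_gt_three
  -- the threshold for `L`
  obtain ⟨L₀, hL₀⟩ : ∃ L₀ : ℝ, L₀ = 1 + 4 / κ + 4 * |Real.log R| + 4 * |Real.log ρ₀| := ⟨_, rfl⟩
  have hL₀0 : 1 ≤ L₀ := by
    rw [hL₀]
    have h1 := abs_nonneg (Real.log R)
    have h2 := abs_nonneg (Real.log ρ₀)
    have h3 : 0 < 4 / κ := by positivity
    linarith
  refine ⟨2 * Real.pi / L₀, by positivity, fun γ hγ hγ₀ => ?_⟩
  obtain ⟨L, hL⟩ : ∃ L : ℝ, L = 2 * Real.pi / γ := ⟨_, rfl⟩
  rw [← hL]
  have hLL : L₀ < L := by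
    rw [hL, lt_div_iff₀ hγ]
    rw [lt_div_iff₀ (by linarith)] at hγ₀
    linarith
  have hL1 : 1 < L := lt_of_le_of_lt hL₀0 hLL
  have hL0 : 0 < L := by linarith
  have hLγ : 2 * Real.pi / L = γ := by rw [hL]; field_simp
  have hLκ : 4 / κ < L := by
    have h1 := abs_nonneg (Real.log R)
    have h2 := abs_nonneg (Real.log ρ₀)
    linarith
  have hLR : -(L / 4) < Real.log R := by
    have h1 := neg_abs_le (Real.log R)
    have h2 := abs_nonneg (Real.log ρ₀)
    have h3 : 0 < 4 / κ := by positivity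
    linarith
  have hLρ : -(L / 4) < Real.log ρ₀ := by
    have h1 := neg_abs_le (Real.log ρ₀)
    have h2 := abs_nonneg (Real.log R)
    have h3 : 0 < 4 / κ := by positivity
    linarith
  obtain ⟨a, ha⟩ : ∃ a : ℝ, a = Real.exp (-(7 * L / 8)) := ⟨_, rfl⟩
  obtain ⟨b, hb⟩ : ∃ b : ℝ, b = Real.exp (-(L / 4)) := ⟨_, rfl⟩
  have ha0 : 0 < a := by rw [ha]; exact Real.exp_pos _
  have hb0 : 0 < b := by rw [hb]; exact Real.exp_pos _
  have hab : a < b := by
    rw [ha, hb]
    apply Real.exp_lt_exp.2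
    linarith
  have hra : Real.exp (-L) < a := by
    rw [ha]
    apply Real.exp_lt_exp.2
    linarith
  have hbR : b < R := by
    rw [hb, ← Real.lt_log_iff_exp_lt hR]
    exact hLR
  have hbρ : b ≤ ρ₀ := by
    rw [hb]
    exact ((Real.lt_log_iff_exp_lt hρ₀).1 hLρ).le
  have hq0 : ∀ s, s ≤ a → q2 χ L s = 0 := by
    intro s hs
    rcases le_or_gt s 0 with h | h
    · exact if_pos h
    · rw [q2_pos h]
      apply hχ0
      rw [le_div_iff₀ hL0]
      have h1 : Real.log s ≤ -(7 * L / 8) := by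
        rw [Real.log_le_iff_le_exp h, ← ha]
        exact hs
      linarith
  have hq1 : ∀ s, b ≤ s → q2 χ L s = 1 := by
    intro s hs
    have h : 0 < s := lt_of_lt_of_le hb0 hs
    rw [q2_pos h]
    apply hχ1
    rw [div_le_iff₀ hL0]
    have h1 : -(L / 4) ≤ Real.log s := by
      rw [Real.le_log_iff_exp_le h, ← hb]
      exact hs
    linarith
  -- the derivative
  have hd2 : ∀ s, a < s → deriv (q2 χ L) s ^ 2 ≤ 25 / 4 * (L ^ 2)⁻¹ * (1 / s ^ 2) := by
    intro s has
    have hs : 0 < s := ha0.trans has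
    rw [q2_deriv hχ hs, mul_pow, div_pow, neg_sq]
    have e1 : deriv χ (-Real.log s / L) ^ 2 ≤ 25 / 4 := by
      have := hχb (-Real.log s / L)
      rw [← sq_abs]
      have h0 := abs_nonneg (deriv χ (-Real.log s / L))
      nlinarith
    have e2 : s⁻¹ ^ 2 / L ^ 2 = (L ^ 2)⁻¹ * (1 / s ^ 2) := by
      rw [inv_pow, one_div, div_eq_mul_inv]; ring
    rw [e2]
    calc deriv χ (-Real.log s / L) ^ 2 * ((L ^ 2)⁻¹ * (1 / s ^ 2))
        ≤ 25 / 4 * ((L ^ 2)⁻¹ * (1 / s ^ 2)) := mul_le_mul_of_nonneg_right e1 (by positivity)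
      _ = 25 / 4 * (L ^ 2)⁻¹ * (1 / s ^ 2) := by ring
  have hda : ∀ s, s ≤ a → deriv (q2 χ L) s = 0 := by
    intro s hs
    rcases lt_or_eq_of_le hs with h | h
    · exact deriv_zero_of_lt hq0 h
    · rw [h, q2_deriv hχ ha0]
      have h1 : 7 / 8 ≤ -Real.log a / L := by
        rw [ha, Real.log_exp, le_div_iff₀ hL0]
        linarith
      rw [hχz _ (Or.inr h1), zero_mul]
  have hχint : Integrable (fun s => deriv χ s ^ 2) := by
    have hc : Continuous (fun s => deriv χ s ^ 2) :=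
      (hχ.continuous_deriv (by simp)).pow 2
    refine hc.integrable_of_hasCompactSupport ?_
    refine HasCompactSupport.of_support_subset_isCompact
      (isCompact_Icc (a := (1 / 4 : ℝ)) (b := 7 / 8)) ?_
    intro s hs
    rw [Function.mem_support] at hs
    by_contra hcon
    apply hs
    have : s ≤ 1 / 4 ∨ 7 / 8 ≤ s := by
      by_contra h
      push Not at h
      exact hcon ⟨h.1.le, h.2.le⟩
    rw [hχz s this]
    norm_num
  have hlog : Real.log (b / a) = 5 * L / 8 := by
    rw [Real.log_div hb0.ne' ha0.ne', ha, hb, Real.log_exp, Real.log_exp]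
    ring
  obtain ⟨δ, hδ⟩ : ∃ δ : ℝ, δ = 25 / 4 * (L ^ 2)⁻¹ *
    (4 * κ' * (Real.log (b / a) / Real.log 2 + 1)) := ⟨_, rfl⟩
  have hlog2 : 1 / 2 < Real.log 2 := by
    have := Real.log_two_gt_d9
    linarith
  have hδle : δ ≤ 75 * κ' / L := by
    rw [hδ, hlog]
    have e1 : 5 * L / 8 / Real.log 2 + 1 ≤ 3 * L := by
      have e2 : 5 * L / 8 / Real.log 2 ≤ 5 * L / 4 := by
        rw [div_le_iff₀ (by linarith)]
        nlinarith
      linarith
    calc 25 / 4 * (L ^ 2)⁻¹ * (4 * κ' * (5 * L / 8 / Real.log 2 + 1))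
        ≤ 25 / 4 * (L ^ 2)⁻¹ * (4 * κ' * (3 * L)) := by
          apply mul_le_mul_of_nonneg_left _ (by positivity)
          exact mul_le_mul_of_nonneg_left e1 (by positivity)
      _ = 75 * κ' / L := by
          field_simp
          ring
  refine ⟨_, cut_of (q := q2 χ L) (r' := a) (R' := b) (δ := δ) rai rgr err
    (Or.inl rfl) hf x (Real.exp_pos _) hra hbR ?_ hq0 hq1 ?_ ?_ ?_ ?_ ?_⟩
  · -- smooth
    have h1 : ContDiffOn ℝ ((⊤ : ℕ∞) : WithTop ℕ∞) (fun s => χ (-Real.log s / L)) (Ioi 0) := by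
      refine hχ.comp_contDiffOn ?_
      refine ContDiffOn.div_const ?_ L
      refine ContDiffOn.neg ?_
      exact Real.contDiffOn_log.mono fun s hs => ne_of_gt hs
    exact h1.congr fun s hs => q2_pos hs
  · intro s
    rcases le_or_gt s 0 with h | h
    · have : q2 χ L s = 0 := if_pos h
      rw [this]
      norm_num
    · rw [q2_pos h]
      exact hrng _
  · -- energy
    have e1 : sph 2 = 2 * Real.pi := by
      unfold sph
      norm_num
    have e2 : ∫ ρ in Ioi (0 : ℝ), ρ ^ (2 - 1) * deriv (q2 χ L) ρ ^ 2 =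
        L⁻¹ * ∫ s, deriv χ s ^ 2 := by
      rw [int_exp hL0, ← integral_const_mul]
      refine integral_congr_ae (Eventually.of_forall fun s => ?_)
      have hs : 0 < Real.exp (-(L * s)) := Real.exp_pos _
      show L * Real.exp (-(L * s)) * (Real.exp (-(L * s)) ^ (2 - 1) *
        deriv (q2 χ L) (Real.exp (-(L * s))) ^ 2) = L⁻¹ * deriv χ s ^ 2
      rw [q2_deriv hχ hs, Real.log_exp]
      have e3 : - -(L * s) / L = s := by field_simp
      rw [e3]
      have e4 : Real.exp (-(L * s)) ≠ 0 := hs.ne'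
      norm_num
      field_simp
    rw [e1, e2]
    calc 2 * Real.pi * (L⁻¹ * ∫ s, deriv χ s ^ 2)
        = (2 * Real.pi / L) * ∫ s, deriv χ s ^ 2 := by rw [div_eq_mul_inv]; ring
      _ ≤ (2 * Real.pi / L) * (5 / 2) :=
          mul_le_mul_of_nonneg_left hχi (by positivity)
      _ = 5 / 2 * γ := by rw [hLγ]; ring
  · -- error
    intro i
    have hm : Measurable (fun y => |f i y - f i x|) := ((hf i).1.sub measurable_const).abs
    have hn : Measurable (fun y : En 2 => ‖y - x‖) := by fun_prop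
    have hSm : MeasurableSet {y : En 2 | a < ‖y - x‖ ∧ ‖y - x‖ ≤ b} :=
      (measurableSet_lt measurable_const hn).inter (measurableSet_le hn measurable_const)
    have hSsub : {y : En 2 | a < ‖y - x‖ ∧ ‖y - x‖ ≤ b} ⊆ Metric.closedBall x b := by
      intro y hy
      rw [Metric.mem_closedBall, dist_eq_norm]
      exact hy.2
    have hSfin : volume {y : En 2 | a < ‖y - x‖ ∧ ‖y - x‖ ≤ b} ≠ ⊤ :=
      ((measure_mono hSsub).trans_lt measure_closedBall_lt_top).ne
    have hB0 : 0 ≤ B := (abs_nonneg _).trans ((hf i).2 x)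
    have hio : IntegrableOn (fun y => |f i y - f i x| / ‖y - x‖ ^ 2)
        {y : En 2 | a < ‖y - x‖ ∧ ‖y - x‖ ≤ b} := by
      refine Measure.integrableOn_of_bounded (M := 2 * B / a ^ 2) hSfin
        ((hm.div (by fun_prop)).aestronglyMeasurable) ?_
      rw [ae_restrict_iff' hSm]
      refine Eventually.of_forall fun y hy => ?_
      have a1 := (hf i).2 y
      have a2 := (hf i).2 x
      rw [Real.norm_eq_abs, abs_div, abs_abs, abs_of_nonneg (sq_nonneg (‖y - x‖))]
      have a3 := abs_sub (f i y) (f i x)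
      have a4 : |f i y - f i x| ≤ 2 * B := by linarith
      have a5 : a ^ 2 ≤ ‖y - x‖ ^ 2 := pow_le_pow_left₀ ha0.le hy.1.le 2
      exact div_le_div₀ (by linarith) a4 (by positivity) a5
    have hii : Integrable (fun y => 25 / 4 * (L ^ 2)⁻¹ *
        {y : En 2 | a < ‖y - x‖ ∧ ‖y - x‖ ≤ b}.indicator
          (fun y => |f i y - f i x| / ‖y - x‖ ^ 2) y) :=
      (hio.integrable_indicator hSm).const_mul _
    calc ∫ y, |f i y - f i x| * deriv (q2 χ L) ‖y - x‖ ^ 2
        ≤ ∫ y, 25 / 4 * (L ^ 2)⁻¹ *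
          {y : En 2 | a < ‖y - x‖ ∧ ‖y - x‖ ≤ b}.indicator
            (fun y => |f i y - f i x| / ‖y - x‖ ^ 2) y := by
          refine integral_mono_of_nonneg (Eventually.of_forall fun y => by positivity) hii
            (Eventually.of_forall fun y => ?_)
          by_cases hy : y ∈ {y : En 2 | a < ‖y - x‖ ∧ ‖y - x‖ ≤ b}
          · simp only [indicator_of_mem hy]
            have := mul_le_mul_of_nonneg_left (hd2 ‖y - x‖ hy.1) (abs_nonneg (f i y - f i x))
            calc |f i y - f i x| * deriv (q2 χ L) ‖y - x‖ ^ 2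
                ≤ |f i y - f i x| * (25 / 4 * (L ^ 2)⁻¹ * (1 / ‖y - x‖ ^ 2)) := this
              _ = 25 / 4 * (L ^ 2)⁻¹ * (|f i y - f i x| / ‖y - x‖ ^ 2) := by ring
          · simp only [indicator_of_notMem hy]
            have hz : deriv (q2 χ L) ‖y - x‖ = 0 := by
              rcases le_or_gt ‖y - x‖ a with h | h
              · exact hda _ h
              · have h2 : b < ‖y - x‖ := by
                  by_contra hcon
                  push Not at hcon
                  exact hy ⟨h, hcon⟩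
                exact deriv_zero_of_gt hq1 h2
            rw [hz]
            simp
      _ = 25 / 4 * (L ^ 2)⁻¹ *
          ∫ y in {y : En 2 | a < ‖y - x‖ ∧ ‖y - x‖ ≤ b}, |f i y - f i x| / ‖y - x‖ ^ 2 := by
          rw [integral_const_mul, integral_indicator hSm]
      _ ≤ 25 / 4 * (L ^ 2)⁻¹ * (4 * κ' * (Real.log (b / a) / Real.log 2 + 1)) :=
          mul_le_mul_of_nonneg_left (dya (f i) B x κ' a b (hf i) ha0 hab
            (fun ρ h1 h2 => hρ i ρ h1 (h2.trans hbρ))) (by positivity)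
      _ = δ := hδ.symm
  · -- constants
    have a1 : |B| * (N : ℝ) ^ 2 * (25 * κ') ≤ κ := by
      rw [hκ']
      have : |B| * (N : ℝ) ^ 2 * (25 * (κ / (25 * (|B| * N ^ 2 + 1)))) =
          κ * (|B| * N ^ 2) / (|B| * N ^ 2 + 1) := by field_simp
      rw [this, div_le_iff₀ (by positivity)]
      nlinarith
    have a2 : 6 / L ≤ γ := by
      rw [← hLγ]
      apply div_le_div_of_nonneg_right _ hL0.le
      linarith
    calc 2 * |B| * N * (N * δ) = 2 * |B| * (N : ℝ) ^ 2 * δ := by ring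
      _ ≤ 2 * |B| * (N : ℝ) ^ 2 * (75 * κ' / L) :=
          mul_le_mul_of_nonneg_left hδle (by positivity)
      _ = (|B| * (N : ℝ) ^ 2 * (25 * κ')) * (6 / L) := by ring
      _ ≤ κ * γ := mul_le_mul a1 a2 (by positivity) hκ.le
  · -- volume
    have a1 : volume.real (Metric.ball x b) = b ^ 2 * Real.pi := by
      unfold Measure.real
      rw [EuclideanSpace.volume_ball_fin_two, ENNReal.toReal_mul, ENNReal.toReal_pow,
        ENNReal.toReal_ofReal hb0.le, ENNReal.toReal_ofReal hπ.le]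
    rw [a1]
    have a2 : b ^ 2 = Real.exp (-(L / 2)) := by
      rw [hb, ← Real.exp_nat_mul]
      congr 1
      push_cast
      ring
    have a3 : Real.exp (-(L / 2)) ≤ 8 / L ^ 2 := by
      rw [Real.exp_neg, inv_le_comm₀ (Real.exp_pos _) (by positivity)]
      have h1 := Real.quadratic_le_exp_of_nonneg (x := L / 2) (by positivity)
      have h2 : (8 / L ^ 2)⁻¹ = (L / 2) ^ 2 / 2 := by
        field_simp
        ring
      rw [h2]
      linarith
    have a4 : 8 / L ^ 2 ≤ κ * 2 / L := by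
      rw [div_le_div_iff₀ (by positivity) hL0]
      have h1 : 4 ≤ κ * L := by
        rw [div_lt_iff₀ hκ] at hLκ
        linarith
      nlinarith
    rw [a2, ← hLγ]
    calc Real.exp (-(L / 2)) * Real.pi ≤ κ * 2 / L * Real.pi :=
          mul_le_mul_of_nonneg_right (a3.trans a4) hπ.le
      _ = κ * (2 * Real.pi / L) := by ring

end

end Pool.Agent.BEH.H39
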