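import Pool.Agent.BEH.StmtsD
import Pool.Agent.Helper20_BEL.ULT
import Pool.Agent.Helper53_BEL.Fin

/-!
# Squad BEH (MP_be01ff_an), row ULU: ultracontractivity with a constant which depends on `d` only

Copy of `Pool/Agent/Helper20_BEL/ULT.lean` (helper20) with the constant before the domain.
-/

namespace Pool.Agent.BEH.H39

open Set Filter Topology MeasureTheory
open scoped InnerProductSpace ENNReal
open Pool.Agent.BE01 Pool.Agent.BEL Pool.Agent.BEL.H20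

noncomputable section

/-- row ULU -/
theorem ulu (hN : NsuStmt) : UluStmt := by
  intro d hd
  obtain ⟨κ, hκ, hnash0⟩ := hN d hd
  have hL : LsmStmt := Pool.Agent.BEL.H53.lsmA
  have hdd : (0 : ℝ) < d := by exact_mod_cast hd
  obtain ⟨C0, hC0⟩ : ∃ C0 : ℝ, C0 = (2 ^ ((d : ℝ) / 2) / κ) ^ ((d : ℝ) / 2) := ⟨_, rfl⟩
  have hC0p : 0 < C0 := by
    rw [hC0]
    positivity
  refine ⟨Real.sqrt C0, Real.sqrt_pos.mpr hC0p, fun Ω ι b e om hΩ hι hS t f u ht hu => ?_⟩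
  have hnash := hnash0 Ω ι hΩ hι
  obtain ⟨c, hc⟩ : ∃ c : ℕ → ℝ, c = fun k => ⟪b k, f⟫_ℝ := ⟨_, rfl⟩
  have hcs : Summable (fun k => c k ^ 2) := by
    rw [hc]
    exact (hs_sq b f).summable
  -- the functions `G s`
  have hex : ∀ s : ℝ, ∃ G : VV Ω, 0 < s → ∀ k,
      ⟪e k, G⟫_ℝ = om k * Real.exp (-(s * om k ^ 2)) * c k := by
    intro s
    by_cases hs : 0 < s
    · obtain ⟨G, hG⟩ := ex_coef e (fun k => om k * Real.exp (-(s * om k ^ 2)) * c k) (by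
        refine Summable.of_nonneg_of_le (fun k => sq_nonneg _) (fun k => ?_)
          (hcs.mul_left ((1 + 1 / s) ^ 2))
        rw [mul_pow]
        refine mul_le_mul_of_nonneg_right ?_ (sq_nonneg _)
        exact pow_le_pow_left₀ (mul_nonneg (hS.pos k).le (Real.exp_pos _).le)
          (mult_bd (om k) s (hS.pos k) hs) 2)
      exact ⟨G, fun _ => hG⟩
    · exact ⟨0, fun h => absurd h hs⟩
  choose G hG using hex
  have hcoef : ∀ s, 0 < s → ∀ k, ⟪b k, ι (G s)⟫_ℝ = Real.exp (-(s * om k ^ 2)) * c k := by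
    intro s hs k
    rw [hS.rel k (G s), hG s hs k]
    have := (hS.pos k).ne'
    field_simp
  have hheat : ∀ s, 0 < s → Heat b om s f (ι (G s)) := by
    intro s hs k
    rw [hcoef s hs k, hc]
  -- norms
  have hF : ∀ s, 0 < s →
      HasSum (fun k => (Real.exp (-(s * om k ^ 2)) * c k) ^ 2) (‖ι (G s)‖ ^ 2) := by
    intro s hs
    have h := hs_sq b (ι (G s))
    have he : (fun k => ⟪b k, ι (G s)⟫_ℝ ^ 2) =
        fun k => (Real.exp (-(s * om k ^ 2)) * c k) ^ 2 := by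
      funext k
      rw [hcoef s hs k]
    rwa [he] at h
  have hGn : ∀ s, 0 < s →
      HasSum (fun k => (om k * Real.exp (-(s * om k ^ 2)) * c k) ^ 2) (‖G s‖ ^ 2) := by
    intro s hs
    have h := hs_sq e (G s)
    have he : (fun k => ⟪e k, G s⟫_ℝ ^ 2) =
        fun k => (om k * Real.exp (-(s * om k ^ 2)) * c k) ^ 2 := by
      funext k
      rw [hG s hs k]
    rwa [he] at h
  have hFB : ∀ s, 0 < s → ‖ι (G s)‖ ^ 2 ≤ ‖f‖ ^ 2 := by
    intro s hs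
    have h := hs_sq b f
    refine hasSum_le (fun k => ?_) (hF s hs) h
    rw [mul_pow]
    have h1 : Real.exp (-(s * om k ^ 2)) ≤ 1 := by
      rw [Real.exp_le_one_iff]
      have : 0 ≤ s * om k ^ 2 := by positivity
      linarith
    have h2 : Real.exp (-(s * om k ^ 2)) ^ 2 ≤ 1 := pow_le_one₀ (Real.exp_pos _).le h1
    have h3 : c k = ⟪b k, f⟫_ℝ := by rw [hc]
    rw [h3]
    calc Real.exp (-(s * om k ^ 2)) ^ 2 * ⟪b k, f⟫_ℝ ^ 2 ≤ 1 * ⟪b k, f⟫_ℝ ^ 2 :=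
          mul_le_mul_of_nonneg_right h2 (sq_nonneg _)
      _ = ⟪b k, f⟫_ℝ ^ 2 := one_mul _
  have hhalf : ∀ s, 0 < s → s * ‖G s‖ ^ 2 ≤ ‖ι (G (s / 2))‖ ^ 2 := by
    intro s hs
    exact hasSum_le (fun k => term_le (om k) s (c k)) ((hGn s hs).mul_left s)
      (hF (s / 2) (by positivity))
  obtain ⟨I, hI⟩ : ∃ I : ℝ, I = ∫ x, |f x| ∂(mu Ω) := ⟨_, rfl⟩
  have hI0 : 0 ≤ I := by
    rw [hI]
    exact integral_nonneg (fun x => abs_nonneg _)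
  have hL1 : ∀ s, 0 < s → ∫ x, |ι (G s) x| ∂(mu Ω) ≤ I := by
    intro s hs
    rw [hI]
    exact hL d Ω ι b e om hd hΩ hι hS s f (ι (G s)) hs.le (hheat s hs)
  have hrec : ∀ s, 0 < s → s * (κ * (‖ι (G s)‖ ^ 2) ^ (1 + 2 / (d : ℝ))) ≤
      ‖ι (G (s / 2))‖ ^ 2 * I ^ (4 / (d : ℝ)) := by
    intro s hs
    have h1 := hnash (G s)
    have h2 : (‖ι (G s)‖ ^ 2) ^ (1 + 2 / (d : ℝ)) = ‖ι (G s)‖ ^ (2 + 4 / (d : ℝ)) := by
      rw [← Real.rpow_natCast, ← Real.rpow_mul (norm_nonneg _)]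
      congr 1
      push_cast
      ring
    rw [h2]
    have h3 : (∫ x, |ι (G s) x| ∂(mu Ω)) ^ (4 / (d : ℝ)) ≤ I ^ (4 / (d : ℝ)) :=
      Real.rpow_le_rpow (integral_nonneg (fun x => abs_nonneg _)) (hL1 s hs) (by positivity)
    calc s * (κ * ‖ι (G s)‖ ^ (2 + 4 / (d : ℝ)))
        ≤ s * (‖G s‖ ^ 2 * (∫ x, |ι (G s) x| ∂(mu Ω)) ^ (4 / (d : ℝ))) :=
          mul_le_mul_of_nonneg_left h1 hs.le
      _ ≤ s * (‖G s‖ ^ 2 * I ^ (4 / (d : ℝ))) := by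
          refine mul_le_mul_of_nonneg_left ?_ hs.le
          exact mul_le_mul_of_nonneg_left h3 (sq_nonneg _)
      _ = (s * ‖G s‖ ^ 2) * I ^ (4 / (d : ℝ)) := by ring
      _ ≤ ‖ι (G (s / 2))‖ ^ 2 * I ^ (4 / (d : ℝ)) :=
          mul_le_mul_of_nonneg_right (hhalf s hs) (Real.rpow_nonneg hI0 _)
  have hmain := rec_bound (fun s => ‖ι (G s)‖ ^ 2) (d : ℝ) κ (I ^ (4 / (d : ℝ))) t (‖f‖ ^ 2) hdd
    hκ (Real.rpow_nonneg hI0 _) ht (fun s _ => sq_nonneg _) hFB hrec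
  have hK : (2 ^ ((d : ℝ) / 2) * I ^ (4 / (d : ℝ)) / κ) ^ ((d : ℝ) / 2) = C0 * I ^ 2 := by
    have h1 : 2 ^ ((d : ℝ) / 2) * I ^ (4 / (d : ℝ)) / κ =
        (2 ^ ((d : ℝ) / 2) / κ) * I ^ (4 / (d : ℝ)) := by ring
    rw [h1, Real.mul_rpow (by positivity) (Real.rpow_nonneg hI0 _), ← hC0,
      ← Real.rpow_mul hI0]
    have h2 : 4 / (d : ℝ) * ((d : ℝ) / 2) = ((2 : ℕ) : ℝ) := by
      field_simp
      norm_num
    rw [h2, Real.rpow_natCast]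
  rw [hK] at hmain
  -- `u = ι (G t)`
  have hun : ‖u‖ ^ 2 = ‖ι (G t)‖ ^ 2 := by
    have h := hs_sq b u
    have he : (fun k => ⟪b k, u⟫_ℝ ^ 2) = fun k => (Real.exp (-(t * om k ^ 2)) * c k) ^ 2 := by
      funext k
      rw [hu k, hc]
    rw [he] at h
    exact h.unique (hF t ht)
  have h5 : t ^ ((d : ℝ) / 2) * ‖u‖ ^ 2 ≤ C0 * I ^ 2 := by
    rw [hun]
    exact hmain
  rw [← hI]
  refine abs_le_of_sq_le_sq' ?_ ?_ |>.2
  · have h6 : (Real.sqrt C0 * t ^ (-((d : ℝ) / 4)) * I) ^ 2 = C0 * I ^ 2 / t ^ ((d : ℝ) / 2) := by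
      rw [mul_pow, mul_pow, Real.sq_sqrt hC0p.le, ← Real.rpow_natCast (t ^ (-((d : ℝ) / 4))) 2,
        ← Real.rpow_mul ht.le]
      have h7 : -((d : ℝ) / 4) * ((2 : ℕ) : ℝ) = -((d : ℝ) / 2) := by
        push_cast
        ring
      rw [h7, Real.rpow_neg ht.le]
      ring
    rw [h6, le_div_iff₀ (Real.rpow_pos_of_pos ht _), mul_comm]
    exact h5
  · positivity

end

end Pool.Agent.BEH.H39
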