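import Pool.Agent.BEH.Stmts

/-!
# Squad BEH: radial cut-off functions, the common part of HU2 and HU3
-/

set_option autoImplicit false

namespace Pool.Agent.BEH.H39

open Set Filter Topology MeasureTheory
open scoped InnerProductSpace ENNReal
open Pool.Agent.BE01 Pool.Agent.BEL Pool.Agent.BEH

noncomputable section

variable {d : ℕ}

/-- a function which is constant near a point has derivative zero there -/
theorem deriv_zero_of_lt {q : ℝ → ℝ} {r' s : ℝ} (h0 : ∀ s, s ≤ r' → q s = 0) (hs : s < r') :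
    deriv q s = 0 := by
  have h : q =ᶠ[𝓝 s] fun _ => 0 := by
    filter_upwards [Iio_mem_nhds hs] with t ht
    exact h0 t (le_of_lt ht)
  rw [h.deriv_eq]
  simp

theorem deriv_zero_of_gt {q : ℝ → ℝ} {R' s : ℝ} (h1 : ∀ s, R' ≤ s → q s = 1) (hs : R' < s) :
    deriv q s = 0 := by
  have h : q =ᶠ[𝓝 s] fun _ => 1 := by
    filter_upwards [Ioi_mem_nhds hs] with t ht
    exact h1 t (le_of_lt ht)
  rw [h.deriv_eq]
  simp

/-- square of the norm of the gradient of a radial function -/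
theorem grad_sq {x : En d} {q : ℝ → ℝ} {r' : ℝ} (hr' : 0 < r') (h0 : ∀ s, s ≤ r' → q s = 0)
    (hg : ∀ y, gradient (fun y : En d => q ‖y - x‖) y = (deriv q ‖y - x‖ / ‖y - x‖) • (y - x))
    (y : En d) : ‖gradient (fun y : En d => q ‖y - x‖) y‖ ^ 2 = deriv q ‖y - x‖ ^ 2 := by
  rw [hg y, norm_smul, Real.norm_eq_abs, mul_pow, sq_abs]
  rcases eq_or_ne (‖y - x‖) 0 with h | h
  · rw [h, deriv_zero_of_lt h0 hr']
    simp
  · field_simp

theorem cont_grad {η : En d → ℝ} (h : ContDiff ℝ ((⊤ : ℕ∞) : WithTop ℕ∞) η) :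
    Continuous (gradient η) := by
  have h1 : Continuous (fderiv ℝ η) := h.continuous_fderiv (by simp)
  have h2 : gradient η = fun x => (InnerProductSpace.toDual ℝ (En d)).symm (fderiv ℝ η x) := rfl
  rw [h2]
  exact (InnerProductSpace.toDual ℝ (En d)).symm.continuous.comp h1

/-- The radial cut-off functions. -/
theorem cut_of {N : ℕ} (rai : RaiStmt) (rgr : RgrStmt) (err : ErrStmt) (hd : d = 2 ∨ d = 3)
    {B : ℝ} {f : Fin N → En d → ℝ} (hf : ∀ i, Bm B (f i)) (x : En d)
    {R κ γ r r' R' δ : ℝ} {q : ℝ → ℝ} (hr : 0 < r) (hrr : r < r') (hR' : R' < R)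
    (hq : ContDiffOn ℝ ((⊤ : ℕ∞) : WithTop ℕ∞) q (Ioi 0)) (h0 : ∀ s, s ≤ r' → q s = 0)
    (h1 : ∀ s, R' ≤ s → q s = 1) (hrng : ∀ s, 0 ≤ q s ∧ q s ≤ 1)
    (hE : sph d * ∫ ρ in Ioi (0 : ℝ), ρ ^ (d - 1) * deriv q ρ ^ 2 ≤ 5 / 2 * γ)
    (hδ : ∀ i, ∫ y, |f i y - f i x| * deriv q ‖y - x‖ ^ 2 ≤ δ)
    (hκ : 2 * |B| * N * (N * δ) ≤ κ * γ)
    (hvol : volume.real (Metric.ball x R') ≤ κ * γ) :
    Cut f x R κ γ r (fun y => q ‖y - x‖) := by
  have hr' : 0 < r' := hr.trans hrr
  obtain ⟨hsm, hgr⟩ := rgr d x q r' hr' hq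
    (fun s hs => (h0 s hs.le).trans (h0 0 hr'.le).symm)
  have hsq := grad_sq hr' h0 hgr
  refine ⟨hsm, fun y => hrng _, ⟨r', hrr, fun y hy => h0 _ hy⟩,
    ⟨R', hR', fun y hy => h1 _ hy⟩, ?_, ?_⟩
  · intro c
    have hint : Integrable (fun y : En d => deriv q ‖y - x‖ ^ 2) := by
      have hc : Continuous (fun y : En d => deriv q ‖y - x‖ ^ 2) := by
        have h2 : (fun y : En d => deriv q ‖y - x‖ ^ 2) =
            fun y => ‖gradient (fun y : En d => q ‖y - x‖) y‖ ^ 2 := by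
          funext y
          exact (hsq y).symm
        rw [h2]
        exact (cont_grad hsm).norm.pow 2
      refine hc.integrable_of_hasCompactSupport ?_
      refine HasCompactSupport.of_support_subset_isCompact (isCompact_closedBall x R') ?_
      intro y hy
      rw [Function.mem_support] at hy
      rw [Metric.mem_closedBall, dist_eq_norm]
      by_contra hcon
      push Not at hcon
      apply hy
      rw [deriv_zero_of_gt h1 hcon]
      simp
    have hinti : ∀ i, Integrable (fun y : En d => |f i y - f i x| * deriv q ‖y - x‖ ^ 2) := by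
      intro i
      have hm : Measurable (fun y => |f i y - f i x|) :=
        ((hf i).1.sub measurable_const).abs
      refine Integrable.bdd_mul (c := 2 * B) hint hm.aestronglyMeasurable ?_
      refine Eventually.of_forall fun y => ?_
      have a1 := (hf i).2 y
      have a2 := (hf i).2 x
      rw [Real.norm_eq_abs, abs_abs]
      have a3 := abs_sub (f i y) (f i x)
      linarith
    have hS : 0 ≤ sq c := Finset.sum_nonneg fun i _ => sq_nonneg _
    have hpt : ∀ y, lc f c y ^ 2 * ‖gradient (fun y : En d => q ‖y - x‖) y‖ ^ 2 ≤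
        lc f c x ^ 2 * deriv q ‖y - x‖ ^ 2 +
          2 * |B| * N * sq c * ∑ i, |f i y - f i x| * deriv q ‖y - x‖ ^ 2 := by
      intro y
      rw [hsq y]
      have e1 := err d N B f c x y hf
      have e2 : 2 * B * N * sq c * ∑ i, |f i y - f i x| ≤
          2 * |B| * N * sq c * ∑ i, |f i y - f i x| := by
        apply mul_le_mul_of_nonneg_right _ (Finset.sum_nonneg fun i _ => abs_nonneg _)
        apply mul_le_mul_of_nonneg_right _ hS
        apply mul_le_mul_of_nonneg_right _ (Nat.cast_nonneg N)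
        linarith [le_abs_self B]
      calc lc f c y ^ 2 * deriv q ‖y - x‖ ^ 2
          ≤ (lc f c x ^ 2 + 2 * |B| * N * sq c * ∑ i, |f i y - f i x|) *
            deriv q ‖y - x‖ ^ 2 :=
            mul_le_mul_of_nonneg_right (e1.trans (by linarith)) (sq_nonneg _)
        _ = _ := by
            rw [add_mul, ← Finset.sum_mul]
            ring
    have hsum : Integrable (fun y : En d => ∑ i, |f i y - f i x| * deriv q ‖y - x‖ ^ 2) :=
      integrable_finsetSum _ fun i _ => hinti i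
    have hle : ∫ y, lc f c y ^ 2 * ‖gradient (fun y : En d => q ‖y - x‖) y‖ ^ 2 ≤
        ∫ y, (lc f c x ^ 2 * deriv q ‖y - x‖ ^ 2 +
          2 * |B| * N * sq c * ∑ i, |f i y - f i x| * deriv q ‖y - x‖ ^ 2) := by
      refine integral_mono_of_nonneg (Eventually.of_forall fun y => ?_)
        ((hint.const_mul _).add (hsum.const_mul _)) (Eventually.of_forall hpt)
      exact mul_nonneg (sq_nonneg _) (sq_nonneg _)
    have heq : ∫ y, (lc f c x ^ 2 * deriv q ‖y - x‖ ^ 2 +
          2 * |B| * N * sq c * ∑ i, |f i y - f i x| * deriv q ‖y - x‖ ^ 2) =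
        lc f c x ^ 2 * (∫ y : En d, deriv q ‖y - x‖ ^ 2) +
          2 * |B| * N * sq c * ∑ i, ∫ y, |f i y - f i x| * deriv q ‖y - x‖ ^ 2 := by
      rw [integral_add (hint.const_mul _) (hsum.const_mul _), integral_const_mul,
        integral_const_mul, integral_finsetSum _ fun i _ => hinti i]
    have hrad : ∫ y : En d, deriv q ‖y - x‖ ^ 2 ≤ 5 / 2 * γ := by
      rw [rai d hd x (fun s => deriv q s ^ 2)]
      exact hE
    have hsm2 : ∑ i : Fin N, ∫ y, |f i y - f i x| * deriv q ‖y - x‖ ^ 2 ≤ N * δ := by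
      calc ∑ i : Fin N, ∫ y, |f i y - f i x| * deriv q ‖y - x‖ ^ 2 ≤ ∑ i : Fin N, δ :=
            Finset.sum_le_sum fun i _ => hδ i
        _ = N * δ := by simp
    calc ∫ y, lc f c y ^ 2 * ‖gradient (fun y : En d => q ‖y - x‖) y‖ ^ 2
        ≤ lc f c x ^ 2 * (∫ y : En d, deriv q ‖y - x‖ ^ 2) +
          2 * |B| * N * sq c * ∑ i, ∫ y, |f i y - f i x| * deriv q ‖y - x‖ ^ 2 := by
          rw [← heq]
          exact hle
      _ ≤ lc f c x ^ 2 * (5 / 2 * γ) + 2 * |B| * N * sq c * (N * δ) := by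
          apply add_le_add
          · exact mul_le_mul_of_nonneg_left hrad (sq_nonneg _)
          · apply mul_le_mul_of_nonneg_left hsm2
            have := abs_nonneg B
            positivity
      _ = lc f c x ^ 2 * (5 / 2 * γ) + sq c * (2 * |B| * N * (N * δ)) := by ring
      _ ≤ lc f c x ^ 2 * (5 / 2 * γ) + sq c * (κ * γ) := by
          have := mul_le_mul_of_nonneg_left hκ hS
          linarith
      _ = γ * (5 / 2 * lc f c x ^ 2 + κ * sq c) := by ring
  · refine le_trans (measureReal_mono ?_ (measure_ball_lt_top.ne)) hvol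
    intro y hy
    rw [Metric.mem_ball, dist_eq_norm]
    by_contra hcon
    push Not at hcon
    exact hy (h1 _ hcon)

/-- a common radius -/
theorem leb_unif {N : ℕ} {f : Fin N → En d → ℝ} {x : En d} (hL : ∀ i, Leb (f i) x) {κ : ℝ}
    (hκ : 0 < κ) : ∃ ρ₀ : ℝ, 0 < ρ₀ ∧ ∀ i, ∀ ρ : ℝ, 0 < ρ → ρ ≤ ρ₀ →
      ∫ y in Metric.closedBall x ρ, |f i y - f i x| ≤ κ * ρ ^ d := by
  choose ρ hρ0 hρ using fun i => hL i κ hκ
  have h : ∀ᶠ s in 𝓝[>] (0 : ℝ), ∀ i, s ≤ ρ i := by
    rw [eventually_all]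
    intro i
    filter_upwards [Ioc_mem_nhdsGT (hρ0 i)] with s hs
    exact hs.2
  obtain ⟨s, hs, hs0⟩ := (h.and self_mem_nhdsWithin).exists
  exact ⟨s, hs0, fun i t ht hts => hρ i t ht (hts.trans (hs i))⟩

/-- the bound of the profile -/
theorem chi_rng {χ : ℝ → ℝ} (ha : Antitone χ) (h1 : ∀ s, s ≤ 1 / 4 → χ s = 1)
    (h0 : ∀ s, 7 / 8 ≤ s → χ s = 0) (s : ℝ) : 0 ≤ χ s ∧ χ s ≤ 1 := by
  constructor
  · rw [← h0 (max s (7 / 8)) (le_max_right _ _)]
    exact ha (le_max_left _ _)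
  · rw [← h1 (min s (1 / 4)) (min_le_right _ _)]
    exact ha (min_le_left _ _)

end

end Pool.Agent.BEH.H39
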